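import Pool.Agent.MP_ff6fba_gt.Mg.Main

/-! The compact-open topology on the diffeomorphism group of a 3-manifold is never minimal. -/

namespace Pool.Agent.Results.MP_ff6fba_gt.NeverMinimal

open scoped Manifold ContDiff
open Pool.Agent.MP_ff6fba_gt

theorem result (M : Type*) [TopologicalSpace M] [T2Space M] [Nonempty M]
    [ChartedSpace (EuclideanSpace ℝ (Fin 3)) M] [IsManifold (𝓡 3) ∞ M] :
    ∃ τ : TopologicalSpace (diffGroup M),
      @IsTopologicalGroup (diffGroup M) τ _ ∧ @T2Space (diffGroup M) τ ∧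
      (∀ S : Set (diffGroup M), @IsOpen _ τ S → @IsOpen _ (compactOpen M) S) ∧
      ∃ S : Set (diffGroup M), @IsOpen _ (compactOpen M) S ∧ ¬ @IsOpen _ τ S :=
  ⟨(basis M).topology, (basis M).isTopologicalGroup, separated, coarser, strict⟩

end Pool.Agent.Results.MP_ff6fba_gt.NeverMinimal
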